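import Pool.Agent.H69.RP.Defs

/-!
API for polynomials on the Boolean cube (helper69): products, powers, monotonicity (complete, no row).
-/

set_option autoImplicit false
open scoped Classical

namespace H69RP

section
variable (K : Type) [Field K] {n : ℕ}

theorem mon_mul (X Y : Finset (Fin n)) : (mon K X : Pt n → K) * mon K Y = mon K (X ∪ Y) := by
  funext a
  rw [Pi.mul_apply, mon_apply, mon_apply, mon_apply]
  by_cases hX : ∀ i ∈ X, a i = true
  · by_cases hY : ∀ i ∈ Y, a i = true
    · rw [if_pos hX, if_pos hY, if_pos, mul_one]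
      intro i hi
      rcases Finset.mem_union.mp hi with h | h
      · exact hX i h
      · exact hY i h
    · rw [if_neg hY, mul_zero, if_neg]
      intro h
      exact hY (fun i hi => h i (Finset.mem_union_right _ hi))
  · rw [if_neg hX, zero_mul, if_neg]
    intro h
    exact hX (fun i hi => h i (Finset.mem_union_left _ hi))

theorem mon_empty : (mon K ∅ : Pt n → K) = 1 := by
  funext a
  rw [mon_apply, if_pos (fun i hi => absurd hi (Finset.notMem_empty i))]
  rfl

theorem mon_mem_Pol {D : ℕ} {X : Finset (Fin n)} (h : X.card ≤ D) : (mon K X : Pt n → K) ∈ Pol K n D := by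
  intro Y hY
  rw [co_mon, if_neg]
  rintro rfl
  omega

theorem Pol_mono {D E : ℕ} (h : D ≤ E) : Pol K n D ≤ Pol K n E :=
  fun _ hf X hX => hf X (lt_of_le_of_lt h hX)

theorem Pol_eq_span (D : ℕ) :
    Pol K n D = Submodule.span K ((fun X : Finset (Fin n) => (mon K X : Pt n → K)) '' {X | X.card ≤ D}) := by
  apply le_antisymm
  · intro f hf
    rw [eq_sum_co K f]
    refine Submodule.sum_mem _ (fun X _ => ?_)
    by_cases hX : X.card ≤ D
    · exact Submodule.smul_mem _ _ (Submodule.subset_span ⟨X, hX, rfl⟩)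
    · rw [hf X (not_le.mp hX), zero_smul]
      exact Submodule.zero_mem _
  · rw [Submodule.span_le]
    rintro g ⟨X, hX, rfl⟩
    exact mon_mem_Pol K hX

theorem mul_mem_Pol {D E : ℕ} {f g : Pt n → K} (hf : f ∈ Pol K n D) (hg : g ∈ Pol K n E) :
    f * g ∈ Pol K n (D + E) := by
  rw [eq_sum_co K f, eq_sum_co K g, Finset.sum_mul]
  refine Submodule.sum_mem _ (fun X _ => ?_)
  rw [Finset.mul_sum]
  refine Submodule.sum_mem _ (fun Y _ => ?_)
  by_cases hX : X.card ≤ D
  · by_cases hY : Y.card ≤ E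
    · rw [smul_mul_smul_comm, mon_mul]
      exact Submodule.smul_mem _ _ (mon_mem_Pol K ((Finset.card_union_le _ _).trans (Nat.add_le_add hX hY)))
    · rw [hg Y (not_le.mp hY), zero_smul, mul_zero]
      exact Submodule.zero_mem _
  · rw [hf X (not_le.mp hX), zero_smul, zero_mul]
    exact Submodule.zero_mem _

theorem mul_mem_Pol' {D E F : ℕ} {f g : Pt n → K} (hf : f ∈ Pol K n D) (hg : g ∈ Pol K n E) (h : D + E ≤ F) :
    f * g ∈ Pol K n F := Pol_mono K h (mul_mem_Pol K hf hg)

theorem one_mem_Pol (D : ℕ) : (1 : Pt n → K) ∈ Pol K n D := by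
  rw [← mon_empty]
  exact mon_mem_Pol K (by simp)

theorem pow_mem_Pol {D : ℕ} {f : Pt n → K} (hf : f ∈ Pol K n D) (r : ℕ) : f ^ r ∈ Pol K n (r * D) := by
  induction r with
  | zero => rw [pow_zero]; exact one_mem_Pol K _
  | succ r ih =>
    rw [pow_succ]
    exact mul_mem_Pol' K ih hf (by ring_nf; exact le_rfl)

theorem prod_mem_Pol {ι : Type} (s : Finset ι) (f : ι → Pt n → K) (d : ι → ℕ) (h : ∀ i ∈ s, f i ∈ Pol K n (d i)) :
    ∏ i ∈ s, f i ∈ Pol K n (∑ i ∈ s, d i) := by
  induction s using Finset.induction_on with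
  | empty => rw [Finset.prod_empty]; exact one_mem_Pol K _
  | insert a s ha ih =>
    rw [Finset.prod_insert ha, Finset.sum_insert ha]
    exact mul_mem_Pol K (h a (Finset.mem_insert_self _ _)) (ih (fun i hi => h i (Finset.mem_insert_of_mem hi)))

theorem co_one (X : Finset (Fin n)) : co K X (1 : Pt n → K) = if X = ∅ then 1 else 0 := by
  rw [← mon_empty, co_mon]
  by_cases h : X = ∅
  · rw [if_pos h, if_pos h.symm]
  · rw [if_neg h, if_neg (fun h' => h h'.symm)]

/-- the number of monomials -/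
theorem finrank_Pol (D : ℕ) : Module.finrank K (Pol K n D) = bin n D := by
  rw [Pol_eq_span]
  have h1 : LinearIndependent K (fun X : {X : Finset (Fin n) // X.card ≤ D} => (mon K X.1 : Pt n → K)) :=
    (mon_li K).comp _ Subtype.val_injective
  have h2 := finrank_span_eq_card h1
  have h3 : Set.range (fun X : {X : Finset (Fin n) // X.card ≤ D} => (mon K X.1 : Pt n → K)) =
      (fun X : Finset (Fin n) => (mon K X : Pt n → K)) '' {X | X.card ≤ D} := by
    ext g
    constructor
    · rintro ⟨X, rfl⟩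
      exact ⟨X.1, X.2, rfl⟩
    · rintro ⟨X, hX, rfl⟩
      exact ⟨⟨X, hX⟩, rfl⟩
  rw [h3] at h2
  rw [h2, Fintype.card_subtype]
  rfl

end

end H69RP
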