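import Mathlib

/-!
Polynomials on the Boolean cube over a field (helper69; definitions and the monomial basis, no row).
-/

set_option autoImplicit false
open scoped Classical

namespace H69RP

/-- 0/1 points -/
abbrev Pt (n : ℕ) := Fin n → Bool

section
variable (K : Type) [Field K] {n : ℕ}

/-- the monomial `∏ i ∈ X, x_i` as a function on 0/1 points -/
noncomputable def mon (X : Finset (Fin n)) : Pt n → K := fun a => if ∀ i ∈ X, a i = true then 1 else 0

theorem mon_apply (X : Finset (Fin n)) (a : Pt n) : mon K X a = if ∀ i ∈ X, a i = true then 1 else 0 := rfl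

theorem mon_li : LinearIndependent K (fun X : Finset (Fin n) => (mon K X : Pt n → K)) := by
  rw [Fintype.linearIndependent_iff]
  intro g hg
  intro Y
  induction Y using Finset.strongInduction with
  | H Y ih =>
    have h1 := congrFun hg (fun i => decide (i ∈ Y))
    rw [Finset.sum_apply] at h1
    have h2 : ∀ X : Finset (Fin n), (g X • (mon K X : Pt n → K)) (fun i => decide (i ∈ Y)) =
        if X ⊆ Y then g X else 0 := by
      intro X
      rw [Pi.smul_apply, mon_apply, smul_eq_mul]
      have h3 : (∀ i ∈ X, (decide (i ∈ Y)) = true) ↔ X ⊆ Y := by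
        constructor
        · intro h i hi
          exact of_decide_eq_true (h i hi)
        · intro h i hi
          exact decide_eq_true (h hi)
      by_cases h4 : X ⊆ Y
      · rw [if_pos (h3.2 h4), if_pos h4, mul_one]
      · rw [if_neg (fun h => h4 (h3.1 h)), if_neg h4, mul_zero]
    rw [Finset.sum_congr rfl (fun X _ => h2 X), Finset.sum_eq_single Y] at h1
    · rw [if_pos (Finset.Subset.refl Y)] at h1
      exact h1
    · intro X _ hX
      by_cases h4 : X ⊆ Y
      · rw [if_pos h4]
        exact ih X (lt_of_le_of_ne h4 hX)
      · rw [if_neg h4]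
    · intro h
      exact absurd (Finset.mem_univ Y) h

/-- the basis of the monomials -/
noncomputable def monB : Module.Basis (Finset (Fin n)) K (Pt n → K) :=
  basisOfLinearIndependentOfCardEqFinrank (mon_li K) (by
    rw [Module.finrank_pi, Fintype.card_finset, Fintype.card_fun, Fintype.card_bool])

theorem monB_apply (X : Finset (Fin n)) : monB K X = mon K X := by
  unfold monB
  rw [coe_basisOfLinearIndependentOfCardEqFinrank]

/-- the coefficient of the monomial `X` -/
noncomputable def co (X : Finset (Fin n)) : (Pt n → K) →ₗ[K] K := (monB K).coord X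

theorem eq_sum_co (f : Pt n → K) : f = ∑ X : Finset (Fin n), co K X f • mon K X := by
  have h := (monB K).sum_repr f
  rw [← h]
  conv_rhs => rw [h]
  exact Finset.sum_congr rfl (fun X _ => by rw [monB_apply]; rfl)

theorem co_mon (X Y : Finset (Fin n)) : co K Y (mon K X : Pt n → K) = if X = Y then 1 else 0 := by
  unfold co
  rw [Module.Basis.coord_apply, ← monB_apply, Module.Basis.repr_self, Finsupp.single_apply]

/-- the functions which are polynomials of degree at most `D` -/
noncomputable def Pol (n D : ℕ) : Submodule K (Pt n → K) where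
  carrier := {f | ∀ X : Finset (Fin n), D < X.card → co K X f = 0}
  add_mem' := by
    intro f g hf hg X hX
    rw [map_add, hf X hX, hg X hX, add_zero]
  zero_mem' := fun X _ => map_zero _
  smul_mem' := by
    intro a f hf X hX
    rw [map_smul, hf X hX, smul_zero]

theorem mem_Pol {D : ℕ} {f : Pt n → K} : f ∈ Pol K n D ↔ ∀ X : Finset (Fin n), D < X.card → co K X f = 0 := Iff.rfl

/-- the functions vanishing on `T` -/
def van (T : Set (Pt n)) : Submodule K (Pt n → K) where
  carrier := {g | ∀ a ∈ T, g a = 0}
  add_mem' := by
    intro f g hf hg x hx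
    rw [Pi.add_apply, hf x hx, hg x hx, add_zero]
  zero_mem' := fun x _ => rfl
  smul_mem' := by
    intro a f hf x hx
    rw [Pi.smul_apply, hf x hx, smul_zero]

theorem mem_van {T : Set (Pt n)} {f : Pt n → K} : f ∈ van K T ↔ ∀ a ∈ T, f a = 0 := Iff.rfl

/-- dimension of the restriction of `Pol K n D` to `T` -/
noncomputable def rk (D : ℕ) (T : Set (Pt n)) : ℕ :=
  Module.finrank K (Pol K n D) - Module.finrank K ↥(Pol K n D ⊓ van K T)

end

/-- the weight of a monomial (degree first, injective, additive) -/
def wt {n : ℕ} (X : Finset (Fin n)) : ℕ := ∑ i ∈ X, (2 ^ n + 2 ^ (i : ℕ))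

/-- `X` is the leading monomial of an element of `I` -/
def Red (K : Type) [Field K] {n : ℕ} (I : Submodule K (Pt n → K)) (X : Finset (Fin n)) : Prop :=
  ∃ f ∈ I, co K X f ≠ 0 ∧ ∀ Y : Finset (Fin n), wt X < wt Y → co K Y f = 0

/-- the number of monomials of degree at most `D` -/
def bin (n D : ℕ) : ℕ := (Finset.univ.filter (fun X : Finset (Fin n) => X.card ≤ D)).card

end H69RP
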